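import Pool.Agent.Helper99.RC.Sharp
import Pool.Agent.Helper5.RC.Few

/-!
One set for which all exponents `1 - 2 δ` are attained.
-/

set_option autoImplicit false

open Finset Filter

namespace Pool.Agent.Helper99.RC

open Pool.Agent.Helper25.RC

theorem rep_eq (A : Set ℕ) (n : ℕ) : Pool.Agent.Helper72.NS.rep A n = rep A n := by
  classical
  unfold Pool.Agent.Helper72.NS.rep rep
  rw [← Set.ncard_coe_finset]
  congr 1
  ext p
  simp only [Set.mem_setOf_eq, coe_filter, HasAntidiagonal.mem_antidiagonal]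
  tauto

theorem num_eq (A : Set ℕ) (x : ℕ) : Pool.Agent.Helper72.NS.num A x = #(below A x) := by
  classical
  unfold Pool.Agent.Helper72.NS.num
  rw [← Set.ncard_coe_finset]
  congr 1
  ext n
  simp only [Set.mem_inter_iff, Set.mem_Iio, mem_coe, mem_below]
  tauto

theorem chain_two : Pool.Agent.Helper72.NS.Chain (fun j => 2 ^ j) where
  one := rfl
  dvd := fun j => pow_dvd_pow 2 (Nat.le_succ j)
  two := fun j => by rw [pow_succ, mul_comm]

open Classical in
/-- A set with at least `c √x` elements below every `x`, with bounded mean square, for which the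
bounds of `exceptional` are sharp for every `δ`. -/
theorem example_sharp : ∃ (A : Set ℕ) (K : ℝ), 0 < K ∧ (∀ x : ℕ, 2 ≤ x → √x ≤ K * #(below A x)) ∧
    (∀ x : ℕ, ∑ n ∈ range x, (rep A n : ℝ) ^ 2 ≤ K * x) ∧
    ∀ ε : ℝ, 0 < ε → ∃ c : ℝ, 0 < c ∧ ∀ (N : ℕ) (δ : ℝ), 1 ≤ N → 0 ≤ δ → δ ≤ 1 / 2 →
      c * (N : ℝ) ^ (1 - 2 * δ - ε) ≤ (#{q ∈ Icc 1 N | (nu A q : ℝ) ≤ (q : ℝ) ^ (1 - δ)} : ℝ) := by
  have hsum : Summable fun j : ℕ => (((fun j => 2 ^ j) j : ℕ) : ℝ) / (((j : ℝ) + 1) * √(2 ^ j)) ^ 2 := by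
    have h1 : Summable fun j : ℕ => 1 / ((j : ℝ) + 1) ^ 2 := by
      have h2 := (Real.summable_one_div_nat_pow (p := 2)).2 (by norm_num)
      have h3 := (summable_nat_add_iff 1).2 h2
      refine h3.congr fun j => ?_
      push_cast
      rfl
    refine h1.congr fun j => ?_
    rw [mul_pow, Real.sq_sqrt (by positivity)]
    push_cast
    field_simp
  obtain ⟨A, C, hC, h1, h2, h3⟩ := Pool.Agent.Helper5.RC.few chain_two (Q := 2)
    (fun j => by show 2 ^ (j + 1) ≤ 2 * 2 ^ j; rw [pow_succ, mul_comm])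
    (N := fun j => ((j : ℝ) + 1) * √(2 ^ j)) (fun j => by positivity) hsum
  refine ⟨A, C, hC, fun x hx => ?_, fun x => ?_, fun ε hε => ?_⟩
  · have := h1 x hx
    rwa [num_eq] at this
  · have := h2 x
    simp only [rep_eq] at this
    exact this
  · refine sharp (A := A) (C₁ := C) (fun j => ?_) hε
    have := h3 j
    rw [mul_assoc]
    exact this

end Pool.Agent.Helper99.RC
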