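import Pool.Agent.Helper25.RC.Classes

/-!
The inequality between the numbers of residue classes modulo any finite set of moduli.
-/

set_option autoImplicit false

open Finset Filter

namespace Pool.Agent.Helper99.RC

open Pool.Agent.Helper25.RC

open Classical in
/-- the number of residue classes modulo `q` in which `A` is not null -/
noncomputable def nu (A : Set ℕ) (q : ℕ) : ℕ := #{r ∈ range q | ¬ Null (res A q r)}

/-- The master inequality for finitely many moduli. -/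
theorem master {A : Set ℕ} (hA : ¬ Null A) {K : ℝ}
    (hK : ∀ᶠ x : ℕ in atTop, ∑ n ∈ range x, (rep A n : ℝ) ^ 2 ≤ K * x) :
    ∃ C : ℝ, 0 < C ∧ ∀ (Q : Finset ℕ) (w : ℕ → ℝ), (∀ q ∈ Q, 0 < q) → (∀ q ∈ Q, 0 ≤ w q) →
      (∑ q ∈ Q, w q * (q / (nu A q : ℝ))) ^ 2 ≤
        C * ∑ q ∈ Q, ∑ q' ∈ Q, w q * w q' * (Nat.gcd q q' : ℝ) := by
  classical
  set K' : ℝ := max K 1 with hK'
  have hK0 : 0 < K' := lt_of_lt_of_le one_pos (le_max_right _ _)
  obtain ⟨δ, hδ, hfx⟩ := not_null_iff.1 hA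
  refine ⟨96 * K' / δ ^ 4, by positivity, fun Q w hQpos hw => ?_⟩
  set M : ℕ := ∏ q ∈ Q, q with hM
  have hMpos : 0 < M := Finset.prod_pos hQpos
  have hQM : ∀ q ∈ Q, q ∣ M := fun q hq => Finset.dvd_prod_of_mem (fun q => q) hq
  have hE1 : ∀ᶠ x : ℕ in atTop, ∀ q ∈ Q,
      (#{n ∈ below A x | Null (res A q (n % q))} : ℝ) ≤ δ / 2 * √x := by
    rw [Filter.eventually_all_finset]
    intro q hq
    exact null_part A (hQpos q hq) (by positivity)
  have ht : Tendsto (fun x : ℕ => 2 * x) atTop atTop :=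
    tendsto_atTop_mono (fun x => by show x ≤ 2 * x; omega) tendsto_id
  obtain ⟨x, hxT, hx1, hx2, hx3, hx4⟩ := (hfx.and_eventually (hE1.and ((eventually_ge_atTop M).and
    ((ht.eventually hK).and (eventually_ge_atTop 1))))).exists
  set S := below A x with hS
  have hSx : S ⊆ range x := below_subset_range A x
  have hxr : (1 : ℝ) ≤ x := by exact_mod_cast hx4
  have hT0 : (0 : ℝ) ≤ δ * √x := by positivity
  -- congruent pairs
  have hcong : ∀ q ∈ Q, (#S : ℝ) ^ 2 / 4 * (q / (nu A q : ℝ)) ≤ q * (cong S q : ℝ) := by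
    intro q hq
    set R : Finset ℕ := {r ∈ range q | ¬ Null (res A q r)} with hR
    have hRn : #R = nu A q := rfl
    have h1 : (#S : ℝ) / 2 ≤ (#{n ∈ S | n % q ∈ R} : ℝ) := by
      have h2 : #{n ∈ S | n % q ∈ R} + #{n ∈ S | Null (res A q (n % q))} = #S := by
        rw [← card_filter_add_card_filter_not (s := S) (fun n => n % q ∈ R)]
        congr 1
        congr 1
        ext n
        simp only [mem_filter, hR, mem_range, not_and, not_not]
        constructor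
        · rintro ⟨h3, h4⟩; exact ⟨h3, fun _ => h4⟩
        · rintro ⟨h3, h4⟩; exact ⟨h3, h4 (Nat.mod_lt _ (hQpos q hq))⟩
      have h3 : (#{n ∈ S | n % q ∈ R} : ℝ) + #{n ∈ S | Null (res A q (n % q))} = #S := by
        exact_mod_cast h2
      have h4 := hx1 q hq
      linarith
    have h2 := cong_ge S R q
    have h3 : ((#S : ℝ) / 2) ^ 2 ≤ (nu A q : ℝ) * (cong S q : ℝ) := by
      calc ((#S : ℝ) / 2) ^ 2 ≤ (#{n ∈ S | n % q ∈ R} : ℝ) ^ 2 := by gcongr
        _ ≤ #R * (cong S q : ℝ) := h2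
        _ = _ := by rw [hRn]
    rcases Nat.eq_zero_or_pos (nu A q) with h0 | h0
    · rw [h0]
      simp only [Nat.cast_zero, div_zero, mul_zero]
      positivity
    · have h0' : (0 : ℝ) < nu A q := by exact_mod_cast h0
      rw [← mul_div_assoc, div_le_iff₀ h0']
      nlinarith [mul_le_mul_of_nonneg_left h3 (Nat.cast_nonneg q : (0 : ℝ) ≤ (q : ℝ))]
  have hsum : (#S : ℝ) ^ 2 / 4 * ∑ q ∈ Q, w q * (q / (nu A q : ℝ)) ≤
      ∑ q ∈ Q, w q * (q * (cong S q : ℝ)) := by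
    rw [Finset.mul_sum]
    refine Finset.sum_le_sum fun q hq => ?_
    have := mul_le_mul_of_nonneg_left (hcong q hq) (hw q hq)
    linarith
  have hs0 : 0 ≤ ∑ q ∈ Q, w q * (q / (nu A q : ℝ)) :=
    Finset.sum_nonneg fun q hq => mul_nonneg (hw q hq) (by positivity)
  have hG0 : 0 ≤ ∑ q ∈ Q, ∑ q' ∈ Q, w q * w q' * (Nat.gcd q q' : ℝ) :=
    Finset.sum_nonneg fun q hq => Finset.sum_nonneg fun q' hq' =>
      mul_nonneg (mul_nonneg (hw q hq) (hw q' hq')) (by positivity)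
  have hen := energy S hSx hMpos hx2 Q hQM w
  have hE : ∑ n ∈ range (2 * x), (repF S n : ℝ) ^ 2 ≤ 2 * K' * x := by
    calc ∑ n ∈ range (2 * x), (repF S n : ℝ) ^ 2 ≤ ∑ n ∈ range (2 * x), (rep A n : ℝ) ^ 2 := by
          refine Finset.sum_le_sum fun n _ => ?_
          have : (repF S n : ℝ) ≤ rep A n := by exact_mod_cast repF_below_le A x n
          gcongr
      _ ≤ K * ((2 * x : ℕ) : ℝ) := hx3
      _ ≤ K' * ((2 * x : ℕ) : ℝ) := by
          gcongr
          exact le_max_left _ _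
      _ = 2 * K' * x := by push_cast; ring
  have hT2 : δ ^ 2 * x ≤ (#S : ℝ) ^ 2 := by
    have h1 : (δ * √x) ^ 2 ≤ (#S : ℝ) ^ 2 := by
      gcongr
    rwa [mul_pow, Real.sq_sqrt (by positivity)] at h1
  set s := ∑ q ∈ Q, w q * (q / (nu A q : ℝ)) with hs
  set G := ∑ q ∈ Q, ∑ q' ∈ Q, w q * w q' * (Nat.gcd q q' : ℝ) with hG
  have h5 : (δ ^ 2 * x / 4 * s) ^ 2 ≤ 3 * x * (2 * K' * x) * G := by
    calc (δ ^ 2 * x / 4 * s) ^ 2 ≤ ((#S : ℝ) ^ 2 / 4 * s) ^ 2 := by gcongr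
      _ ≤ (∑ q ∈ Q, w q * (q * (cong S q : ℝ))) ^ 2 := by gcongr
      _ ≤ 3 * x * (∑ n ∈ range (2 * x), (repF S n : ℝ) ^ 2) * G := hen
      _ ≤ 3 * x * (2 * K' * x) * G := by gcongr
  have hx0 : (0 : ℝ) < x := by linarith
  have h6 : s ^ 2 * δ ^ 4 ≤ 96 * K' * G := by
    have h7 : (δ ^ 2 * x / 4 * s) ^ 2 = (x ^ 2 / 16) * (s ^ 2 * δ ^ 4) := by ring
    have h8 : 3 * (x : ℝ) * (2 * K' * x) * G = (x ^ 2 / 16) * (96 * K' * G) := by ring
    rw [h7, h8] at h5
    exact le_of_mul_le_mul_left h5 (by positivity)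
  rw [div_mul_eq_mul_div, le_div_iff₀ (by positivity)]
  exact h6

end Pool.Agent.Helper99.RC
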