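import Pool.Agent.Helper99.RC.Master
import Pool.Agent.Helper94.Abc.Basic

/-!
Almost all moduli: a set which is not null, with representation function bounded in mean square,
occupies most residue classes modulo most integers.
-/

set_option autoImplicit false

open Finset Filter

namespace Pool.Agent.Helper99.RC

open Pool.Agent.Helper25.RC

theorem card_mult (N d : ℕ) : #{q ∈ Icc 1 N | d ∣ q} ≤ N / d := by
  have h : {q ∈ Icc 1 N | d ∣ q} = {q ∈ Ioc 0 N | d ∣ q} := by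
    congr 1
  rw [h, Nat.Ioc_filter_dvd_card_eq_div]

/-- one row of the gcd matrix -/
theorem gcd_row (N : ℕ) {q : ℕ} (hq : 0 < q) :
    ∑ q' ∈ Icc 1 N, (Nat.gcd q q' : ℝ) ≤ N * #(q.divisors) := by
  classical
  have h1 : ∀ q', (Nat.gcd q q' : ℝ) ≤ ∑ d ∈ q.divisors, if d ∣ q' then (d : ℝ) else 0 := by
    intro q'
    have hg : Nat.gcd q q' ∈ q.divisors :=
      Nat.mem_divisors.2 ⟨Nat.gcd_dvd_left _ _, hq.ne'⟩
    have h2 := Finset.single_le_sum (f := fun d : ℕ => if d ∣ q' then (d : ℝ) else 0)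
      (fun d _ => by split_ifs <;> positivity) hg
    simpa [Nat.gcd_dvd_right] using h2
  calc ∑ q' ∈ Icc 1 N, (Nat.gcd q q' : ℝ)
      ≤ ∑ q' ∈ Icc 1 N, ∑ d ∈ q.divisors, (if d ∣ q' then (d : ℝ) else 0) :=
        Finset.sum_le_sum fun q' _ => h1 q'
    _ = ∑ d ∈ q.divisors, ∑ q' ∈ Icc 1 N, (if d ∣ q' then (d : ℝ) else 0) := Finset.sum_comm
    _ ≤ ∑ _d ∈ q.divisors, (N : ℝ) := by
        refine Finset.sum_le_sum fun d hd => ?_
        rw [← Finset.sum_filter, Finset.sum_const, nsmul_eq_mul]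
        have hd0 : 0 < d := Nat.pos_of_mem_divisors hd
        have h3 : #{q' ∈ Icc 1 N | d ∣ q'} * d ≤ N :=
          le_trans (Nat.mul_le_mul_right d (card_mult N d)) (Nat.div_mul_le_self N d)
        exact_mod_cast h3
    _ = N * #(q.divisors) := by
        rw [Finset.sum_const, nsmul_eq_mul, mul_comm]

theorem sum_divisors (N : ℕ) : ∑ q ∈ Icc 1 N, (#(q.divisors) : ℝ) ≤ N * (1 + Real.log N) := by
  classical
  have h1 : ∀ q ∈ Icc 1 N, (#(q.divisors) : ℝ) = ∑ d ∈ Icc 1 N, if d ∣ q then (1 : ℝ) else 0 := by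
    intro q hq
    rw [mem_Icc] at hq
    rw [Finset.sum_boole]
    congr 2
    ext d
    rw [Nat.mem_divisors, mem_filter, mem_Icc]
    constructor
    · rintro ⟨h2, h3⟩
      exact ⟨⟨Nat.pos_of_dvd_of_pos h2 hq.1, (Nat.le_of_dvd hq.1 h2).trans hq.2⟩, h2⟩
    · rintro ⟨_, h2⟩
      exact ⟨h2, by omega⟩
  rw [Finset.sum_congr rfl h1, Finset.sum_comm]
  calc ∑ d ∈ Icc 1 N, ∑ q ∈ Icc 1 N, (if d ∣ q then (1 : ℝ) else 0)
      ≤ ∑ d ∈ Icc 1 N, (N : ℝ) * (d : ℝ)⁻¹ := by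
        refine Finset.sum_le_sum fun d hd => ?_
        rw [mem_Icc] at hd
        rw [Finset.sum_boole]
        have h3 : #{q ∈ Icc 1 N | d ∣ q} * d ≤ N :=
          le_trans (Nat.mul_le_mul_right d (card_mult N d)) (Nat.div_mul_le_self N d)
        have hd0 : (0 : ℝ) < d := by exact_mod_cast hd.1
        rw [← div_eq_mul_inv, le_div_iff₀ hd0]
        exact_mod_cast h3
    _ = N * ((harmonic N : ℚ) : ℝ) := by
        rw [← Finset.mul_sum, harmonic_eq_sum_Icc]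
        push_cast
        rfl
    _ ≤ N * (1 + Real.log N) := by
        gcongr
        exact harmonic_le_one_add_log N

theorem gcd_total (N : ℕ) :
    ∑ q ∈ Icc 1 N, ∑ q' ∈ Icc 1 N, (Nat.gcd q q' : ℝ) ≤ N ^ 2 * (1 + Real.log N) := by
  calc ∑ q ∈ Icc 1 N, ∑ q' ∈ Icc 1 N, (Nat.gcd q q' : ℝ)
      ≤ ∑ q ∈ Icc 1 N, (N : ℝ) * #(q.divisors) :=
        Finset.sum_le_sum fun q hq => gcd_row N (mem_Icc.1 hq).1
    _ = N * ∑ q ∈ Icc 1 N, (#(q.divisors) : ℝ) := by rw [Finset.mul_sum]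
    _ ≤ N * (N * (1 + Real.log N)) := by
        gcongr
        exact sum_divisors N
    _ = _ := by ring

theorem nu_pos {A : Set ℕ} (hA : ¬ Null A) {q : ℕ} (hq : 0 < q) : 0 < nu A q := by
  classical
  by_contra h
  have h0 : nu A q = 0 := by omega
  unfold nu at h0
  rw [card_eq_zero, filter_eq_empty_iff] at h0
  apply hA
  intro ε hε
  filter_upwards [null_part A hq hε] with x hx
  have : {n ∈ below A x | Null (res A q (n % q))} = below A x := by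
    rw [filter_eq_self]
    intro n _
    exact not_not.1 (h0 (mem_range.2 (Nat.mod_lt _ hq)))
  rwa [this] at hx

/-- mean value of `q / ν(q)` -/
theorem mean_ratio {A : Set ℕ} (hA : ¬ Null A) {K : ℝ}
    (hK : ∀ᶠ x : ℕ in atTop, ∑ n ∈ range x, (rep A n : ℝ) ^ 2 ≤ K * x) :
    ∃ C : ℝ, 0 < C ∧ ∀ N : ℕ, ∑ q ∈ Icc 1 N, (q / (nu A q : ℝ)) ≤
      C * N * √(1 + Real.log N) := by
  obtain ⟨C, hC, h⟩ := master hA hK
  refine ⟨√C, Real.sqrt_pos.2 hC, fun N => ?_⟩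
  have h1 := h (Icc 1 N) (fun _ => 1) (fun q hq => (mem_Icc.1 hq).1) (fun q _ => zero_le_one)
  simp only [one_mul] at h1
  have h2 : (∑ q ∈ Icc 1 N, (q / (nu A q : ℝ))) ^ 2 ≤ C * (N ^ 2 * (1 + Real.log N)) :=
    h1.trans (mul_le_mul_of_nonneg_left (gcd_total N) hC.le)
  have hl : 0 ≤ 1 + Real.log N := by
    have := Real.log_natCast_nonneg N
    linarith
  have h3 := Real.abs_le_sqrt h2
  have h4 : √(C * (N ^ 2 * (1 + Real.log N))) = √C * N * √(1 + Real.log N) := by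
    rw [Real.sqrt_mul hC.le, Real.sqrt_mul (by positivity), Real.sqrt_sq (by positivity)]
    ring
  rw [h4] at h3
  exact (le_abs_self _).trans h3

open Classical in
/-- Almost every modulus: few `q` have `ν(q) ≤ q / y`. -/
theorem most {A : Set ℕ} (hA : ¬ Null A) {K : ℝ}
    (hK : ∀ᶠ x : ℕ in atTop, ∑ n ∈ range x, (rep A n : ℝ) ^ 2 ≤ K * x) :
    ∃ C : ℝ, 0 < C ∧ ∀ (N : ℕ) (y : ℝ), 0 < y →
      (#{q ∈ Icc 1 N | (nu A q : ℝ) ≤ q / y} : ℝ) ≤ C * N * √(1 + Real.log N) / y := by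
  obtain ⟨C, hC, h⟩ := mean_ratio hA hK
  refine ⟨C, hC, fun N y hy => ?_⟩
  rw [le_div_iff₀ hy]
  refine le_trans ?_ (h N)
  calc (#{q ∈ Icc 1 N | (nu A q : ℝ) ≤ q / y} : ℝ) * y
      = ∑ _q ∈ {q ∈ Icc 1 N | (nu A q : ℝ) ≤ q / y}, y := by
        rw [Finset.sum_const, nsmul_eq_mul]
    _ ≤ ∑ q ∈ {q ∈ Icc 1 N | (nu A q : ℝ) ≤ q / y}, (q / (nu A q : ℝ)) := by
        refine Finset.sum_le_sum fun q hq => ?_
        rw [mem_filter, mem_Icc] at hq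
        have h0 : (0 : ℝ) < nu A q := by exact_mod_cast nu_pos hA hq.1.1
        rw [le_div_iff₀ h0]
        have := hq.2
        rw [le_div_iff₀ hy] at this
        linarith
    _ ≤ ∑ q ∈ Icc 1 N, (q / (nu A q : ℝ)) :=
        Finset.sum_le_sum_of_subset_of_nonneg (filter_subset _ _) fun q _ _ => by positivity

open Classical in
/-- The exceptional moduli: at most `C N ^ (1 - 2 δ + ε)` of the `q ≤ N` have
`ν(q) ≤ q ^ (1 - δ)`. -/
theorem exceptional {A : Set ℕ} (hA : ¬ Null A) {K : ℝ}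
    (hK : ∀ᶠ x : ℕ in atTop, ∑ n ∈ range x, (rep A n : ℝ) ^ 2 ≤ K * x) {ε : ℝ} (hε : 0 < ε) :
    ∃ C : ℝ, 0 < C ∧ ∀ (N : ℕ) (δ : ℝ), 0 ≤ δ → δ ≤ 1 / 2 →
      (#{q ∈ Icc 1 N | (nu A q : ℝ) ≤ (q : ℝ) ^ (1 - δ)} : ℝ) ≤ C * (N : ℝ) ^ (1 - 2 * δ + ε) := by
  obtain ⟨C₀, hC₀, hm⟩ := master hA hK
  obtain ⟨D, hD1, hD⟩ := Pool.Agent.Helper94.Abc.divisor_bound hε
  have hD0 : 0 < D := by linarith
  have h2e : (2 : ℝ) ^ (-ε) < 1 := Real.rpow_lt_one_of_one_lt_of_neg (by norm_num) (by linarith)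
  set C₁ : ℝ := 2 * C₀ * D with hC₁
  have hC₁0 : 0 < C₁ := by positivity
  have h1e : 0 < 1 - (2 : ℝ) ^ (-ε) := by linarith
  refine ⟨C₁ / (1 - 2 ^ (-ε)), by positivity, fun N => ?_⟩
  induction N using Nat.strong_induction_on with
  | _ N ih =>
  intro δ hδ0 hδ1
  set α : ℝ := 1 - 2 * δ + ε with hα
  have hαε : ε ≤ α := by linarith
  have hα0 : 0 < α := by linarith
  rcases Nat.eq_zero_or_pos N with rfl | hN
  · simp [Real.zero_rpow hα0.ne']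
  have hN' : (0 : ℝ) < N := by exact_mod_cast hN
  have hN1 : (1 : ℝ) ≤ N := by exact_mod_cast hN
  -- the upper half
  set B : Finset ℕ := {q ∈ Icc 1 N | (nu A q : ℝ) ≤ (q : ℝ) ^ (1 - δ) ∧ N / 2 < q} with hB
  have hBI : B ⊆ Icc 1 N := filter_subset _ _
  have hBbig : ∀ q ∈ B, (N : ℝ) / 2 ≤ q := by
    intro q hq
    rw [hB, mem_filter] at hq
    have h1 : N < 2 * q := by have := hq.2.2; omega
    have h2 : (N : ℝ) < 2 * q := by exact_mod_cast h1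
    linarith
  have hBratio : ∀ q ∈ B, ((N : ℝ) / 2) ^ δ ≤ q / (nu A q : ℝ) := by
    intro q hq
    have hq2 := hBbig q hq
    have hq0 : (0 : ℝ) < q := by linarith [half_pos hN']
    rw [hB, mem_filter, mem_Icc] at hq
    have h0 : (0 : ℝ) < nu A q := by exact_mod_cast nu_pos hA hq.1.1
    rw [le_div_iff₀ h0]
    calc ((N : ℝ) / 2) ^ δ * (nu A q : ℝ) ≤ (q : ℝ) ^ δ * (q : ℝ) ^ (1 - δ) := by
          gcongr
          exact hq.2.1
      _ = q := by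
          rw [← Real.rpow_add hq0]
          simp
  have hBcount : (#B : ℝ) ≤ C₁ * (N : ℝ) ^ α := by
    have h1 := hm B (fun _ => 1) (fun q hq => (mem_Icc.1 (hBI hq)).1) (fun q _ => zero_le_one)
    simp only [one_mul] at h1
    have h2 : (#B : ℝ) * ((N : ℝ) / 2) ^ δ ≤ ∑ q ∈ B, (q / (nu A q : ℝ)) := by
      rw [← nsmul_eq_mul, ← Finset.sum_const]
      exact Finset.sum_le_sum fun q hq => hBratio q hq
    have h3 : ∑ q ∈ B, ∑ q' ∈ B, (Nat.gcd q q' : ℝ) ≤ #B * (N * (D * (N : ℝ) ^ ε)) := by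
      rw [← nsmul_eq_mul, ← Finset.sum_const]
      refine Finset.sum_le_sum fun q hq => ?_
      have hq1 := mem_Icc.1 (hBI hq)
      calc ∑ q' ∈ B, (Nat.gcd q q' : ℝ) ≤ ∑ q' ∈ Icc 1 N, (Nat.gcd q q' : ℝ) :=
            Finset.sum_le_sum_of_subset_of_nonneg hBI fun q' _ _ => by positivity
        _ ≤ N * #(q.divisors) := gcd_row N hq1.1
        _ ≤ N * (D * (q : ℝ) ^ ε) := by
            gcongr
            exact hD q (by omega)
        _ ≤ N * (D * (N : ℝ) ^ ε) := by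
            have : (q : ℝ) ≤ N := by exact_mod_cast hq1.2
            gcongr
    have h4 : ((#B : ℝ) * ((N : ℝ) / 2) ^ δ) ^ 2 ≤ C₀ * (#B * (N * (D * (N : ℝ) ^ ε))) := by
      calc ((#B : ℝ) * ((N : ℝ) / 2) ^ δ) ^ 2 ≤ (∑ q ∈ B, (q / (nu A q : ℝ))) ^ 2 := by gcongr
        _ ≤ C₀ * ∑ q ∈ B, ∑ q' ∈ B, (Nat.gcd q q' : ℝ) := h1
        _ ≤ _ := by gcongr
    rcases Nat.eq_zero_or_pos (#B) with h0 | h0
    · rw [h0]; simp only [Nat.cast_zero]; positivity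
    have h0' : (0 : ℝ) < #B := by exact_mod_cast h0
    have h5 : (#B : ℝ) * (((N : ℝ) / 2) ^ δ) ^ 2 ≤ C₀ * (N * (D * (N : ℝ) ^ ε)) := by
      have : (#B : ℝ) * ((#B : ℝ) * (((N : ℝ) / 2) ^ δ) ^ 2) ≤
          (#B : ℝ) * (C₀ * (N * (D * (N : ℝ) ^ ε))) := by
        calc (#B : ℝ) * ((#B : ℝ) * (((N : ℝ) / 2) ^ δ) ^ 2)
            = ((#B : ℝ) * ((N : ℝ) / 2) ^ δ) ^ 2 := by ring
          _ ≤ _ := h4
          _ = _ := by ring
      exact le_of_mul_le_mul_left this h0'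
    have h6 : (((N : ℝ) / 2) ^ δ) ^ 2 = (N : ℝ) ^ (2 * δ) / (2 : ℝ) ^ (2 * δ) := by
      rw [Real.div_rpow hN'.le (by norm_num), div_pow, ← Real.rpow_natCast, ← Real.rpow_natCast,
        ← Real.rpow_mul hN'.le, ← Real.rpow_mul (by norm_num)]
      norm_num [mul_comm]
    have h7 : (2 : ℝ) ^ (2 * δ) ≤ 2 := by
      calc (2 : ℝ) ^ (2 * δ) ≤ (2 : ℝ) ^ (1 : ℝ) :=
            Real.rpow_le_rpow_of_exponent_le (by norm_num) (by linarith)
        _ = 2 := Real.rpow_one 2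
    have h8 : (N : ℝ) ^ α = N * (N : ℝ) ^ ε / (N : ℝ) ^ (2 * δ) := by
      rw [hα, eq_div_iff (by positivity), ← Real.rpow_add hN']
      have : 1 - 2 * δ + ε + 2 * δ = 1 + ε := by ring
      rw [this, Real.rpow_add hN', Real.rpow_one]
    rw [h6] at h5
    have hp1 : (0 : ℝ) < (N : ℝ) ^ (2 * δ) := by positivity
    have hp2 : (0 : ℝ) < (2 : ℝ) ^ (2 * δ) := by positivity
    rw [h8, ← mul_div_assoc, le_div_iff₀ hp1]
    have h9 : (#B : ℝ) * (N : ℝ) ^ (2 * δ) ≤ (C₀ * (N * (D * (N : ℝ) ^ ε))) * (2 : ℝ) ^ (2 * δ) := by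
      have := mul_le_mul_of_nonneg_right h5 hp2.le
      calc (#B : ℝ) * (N : ℝ) ^ (2 * δ)
          = (#B : ℝ) * ((N : ℝ) ^ (2 * δ) / (2 : ℝ) ^ (2 * δ)) * (2 : ℝ) ^ (2 * δ) := by
            field_simp
        _ ≤ _ := this
    calc (#B : ℝ) * (N : ℝ) ^ (2 * δ) ≤ (C₀ * (N * (D * (N : ℝ) ^ ε))) * (2 : ℝ) ^ (2 * δ) := h9
      _ ≤ (C₀ * (N * (D * (N : ℝ) ^ ε))) * 2 := by gcongr
      _ = C₁ * (N * (N : ℝ) ^ ε) := by rw [hC₁]; ring
  -- the lower half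
  have hlow := ih (N / 2) (Nat.div_lt_self hN (by norm_num)) δ hδ0 hδ1
  have hsplit : #{q ∈ Icc 1 N | (nu A q : ℝ) ≤ (q : ℝ) ^ (1 - δ)} ≤
      #{q ∈ Icc 1 (N / 2) | (nu A q : ℝ) ≤ (q : ℝ) ^ (1 - δ)} + #B := by
    refine le_trans (card_le_card ?_) (card_union_le _ _)
    intro q hq
    rw [mem_filter, mem_Icc] at hq
    rw [mem_union, mem_filter, mem_Icc, hB, mem_filter, mem_Icc]
    by_cases h : q ≤ N / 2
    · exact Or.inl ⟨⟨hq.1.1, h⟩, hq.2⟩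
    · exact Or.inr ⟨hq.1, hq.2, by omega⟩
  have hhalf : ((N / 2 : ℕ) : ℝ) ^ α ≤ (N : ℝ) ^ α * (2 : ℝ) ^ (-ε) := by
    calc ((N / 2 : ℕ) : ℝ) ^ α ≤ ((N : ℝ) / 2) ^ α := by
          gcongr
          exact Nat.cast_div_le
      _ = (N : ℝ) ^ α * (2 : ℝ) ^ (-α) := by
          rw [Real.div_rpow hN'.le (by norm_num), Real.rpow_neg (by norm_num), div_eq_mul_inv]
      _ ≤ (N : ℝ) ^ α * (2 : ℝ) ^ (-ε) := by
          gcongr
          · norm_num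
  calc (#{q ∈ Icc 1 N | (nu A q : ℝ) ≤ (q : ℝ) ^ (1 - δ)} : ℝ)
      ≤ (#{q ∈ Icc 1 (N / 2) | (nu A q : ℝ) ≤ (q : ℝ) ^ (1 - δ)} : ℝ) + #B := by
        exact_mod_cast hsplit
    _ ≤ C₁ / (1 - 2 ^ (-ε)) * ((N / 2 : ℕ) : ℝ) ^ α + C₁ * (N : ℝ) ^ α := by
        gcongr
    _ ≤ C₁ / (1 - 2 ^ (-ε)) * ((N : ℝ) ^ α * (2 : ℝ) ^ (-ε)) + C₁ * (N : ℝ) ^ α := by
        gcongr
    _ = C₁ / (1 - 2 ^ (-ε)) * (N : ℝ) ^ α := by
        field_simp
        ring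

end Pool.Agent.Helper99.RC
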