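import Pool.Agent.Helper99.RC.Most

/-!
The exponent `1 - 2 δ` for the exceptional moduli is sharp.
-/

set_option autoImplicit false

open Finset Filter

namespace Pool.Agent.Helper99.RC

open Pool.Agent.Helper25.RC

/-- An empty residual set is null. -/
theorem null_empty : Null (∅ : Set ℕ) := by
  intro ε hε
  filter_upwards with x
  have : below (∅ : Set ℕ) x = ∅ := by
    ext n; simp [mem_below]
  rw [this]
  simp only [card_empty, Nat.cast_zero]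
  positivity

/-- `nu` is at most the number of residues. -/
theorem nu_le_ncard (A : Set ℕ) {q : ℕ} (hq : 0 < q) :
    nu A q ≤ ((fun a => a % q) '' A).ncard := by
  classical
  have hfin : ((fun a => a % q) '' A).Finite :=
    (Set.finite_Iio q).subset (by rintro _ ⟨a, _, rfl⟩; exact Nat.mod_lt _ hq)
  rw [nu, ← Set.ncard_coe_finset]
  refine Set.ncard_le_ncard ?_ hfin
  intro r hr
  rw [mem_coe, mem_filter, mem_range] at hr
  by_contra h
  apply hr.2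
  have : res A q r = ∅ := by
    ext n
    simp only [res, Set.mem_setOf_eq, Set.mem_empty_iff_false, iff_false]
    intro hn
    exact h ⟨q * n + r, hn, by simp [Nat.mul_add_mod, Nat.mod_eq_of_lt hr.1]⟩
  rw [this]
  exact null_empty

/-- residues modulo a multiple -/
theorem nu_mul_le (A : Set ℕ) {m k : ℕ} (hm : 0 < m) (hk : 0 < k) :
    nu A (m * k) ≤ k * ((fun a => a % m) '' A).ncard := by
  classical
  have hfin : ((fun a => a % m) '' A).Finite :=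
    (Set.finite_Iio m).subset (by rintro _ ⟨a, _, rfl⟩; exact Nat.mod_lt _ hm)
  refine (nu_le_ncard A (Nat.mul_pos hm hk)).trans ?_
  have hsub : (fun a => a % (m * k)) '' A ⊆
      ((fun p : ℕ × ℕ => m * p.1 + p.2) '' ((Set.Iio k) ×ˢ ((fun a => a % m) '' A))) := by
    rintro _ ⟨a, ha, rfl⟩
    refine ⟨(a % (m * k) / m, a % m), ⟨?_, ⟨a, ha, rfl⟩⟩, ?_⟩
    · show a % (m * k) / m < k
      exact Nat.div_lt_of_lt_mul (Nat.mod_lt _ (Nat.mul_pos hm hk))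
    · show m * (a % (m * k) / m) + a % m = a % (m * k)
      have : a % m = a % (m * k) % m := by rw [Nat.mod_mul_right_mod]
      rw [this, Nat.div_add_mod]
  have hfin2 : ((Set.Iio k) ×ˢ ((fun a => a % m) '' A)).Finite := (Set.finite_Iio k).prod hfin
  calc ((fun a => a % (m * k)) '' A).ncard
      ≤ ((fun p : ℕ × ℕ => m * p.1 + p.2) '' ((Set.Iio k) ×ˢ ((fun a => a % m) '' A))).ncard :=
        Set.ncard_le_ncard hsub (hfin2.image _)
    _ ≤ ((Set.Iio k) ×ˢ ((fun a => a % m) '' A)).ncard := Set.ncard_image_le hfin2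
    _ = k * ((fun a => a % m) '' A).ncard := by
        rw [Set.ncard_prod]
        congr 1
        rw [← Finset.coe_Iio, Set.ncard_coe_finset, Nat.card_Iio]

/-- polynomial against exponential -/
theorem sq_le_two_pow {η : ℝ} (hη : 0 < η) :
    ∃ C : ℝ, 1 ≤ C ∧ ∀ j : ℕ, ((j : ℝ) + 1) ^ 2 ≤ C * (2 : ℝ) ^ (η * j) := by
  have h1 : Tendsto (fun j : ℕ => ((j : ℝ) + 1) ^ 2 * (2 : ℝ) ^ (-(η * j))) atTop (nhds 0) := by
    have h2 : Tendsto (fun t : ℝ => t ^ (2 : ℝ) * Real.exp (-(η * Real.log 2) * t)) atTop (nhds 0) :=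
      tendsto_rpow_mul_exp_neg_mul_atTop_nhds_zero 2 _ (by positivity)
    have h3 : Tendsto (fun j : ℕ => (j : ℝ) + 1) atTop atTop :=
      tendsto_atTop_add_const_right _ _ tendsto_natCast_atTop_atTop
    have h4 := (h2.comp h3).mul_const (Real.exp (η * Real.log 2))
    rw [zero_mul] at h4
    refine h4.congr fun j => ?_
    simp only [Function.comp]
    have h5 : (2 : ℝ) ^ (-(η * j)) = Real.exp (-(η * Real.log 2) * j) := by
      rw [Real.rpow_def_of_pos (by norm_num)]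
      congr 1; ring
    rw [h5, mul_assoc, ← Real.exp_add]
    have h6 : -(η * Real.log 2) * ((j : ℝ) + 1) + η * Real.log 2 = -(η * Real.log 2) * j := by ring
    rw [h6]
    congr 1
    exact_mod_cast Real.rpow_natCast ((j : ℝ) + 1) 2
  obtain ⟨B, hB⟩ := h1.bddAbove_range
  refine ⟨max B 1, le_max_right _ _, fun j => ?_⟩
  have h2 : ((j : ℝ) + 1) ^ 2 * (2 : ℝ) ^ (-(η * j)) ≤ B := hB ⟨j, rfl⟩
  rw [Real.rpow_neg (by norm_num), ← div_eq_mul_inv, div_le_iff₀ (by positivity)] at h2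
  refine h2.trans ?_
  gcongr
  exact le_max_left _ _

open Classical in
/-- Sharpness: many moduli with few residue classes for a set with few classes modulo all
powers of two. -/
theorem sharp {A : Set ℕ} {C₁ : ℝ}
    (hA : ∀ j : ℕ, (((fun a => a % 2 ^ j) '' A).ncard : ℝ) ≤ C₁ * ((j : ℝ) + 1) * √(2 ^ j))
    {ε : ℝ} (hε : 0 < ε) :
    ∃ c : ℝ, 0 < c ∧ ∀ (N : ℕ) (δ : ℝ), 1 ≤ N → 0 ≤ δ → δ ≤ 1 / 2 →
      c * (N : ℝ) ^ (1 - 2 * δ - ε) ≤ (#{q ∈ Icc 1 N | (nu A q : ℝ) ≤ (q : ℝ) ^ (1 - δ)} : ℝ) := by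
  set η : ℝ := ε / (1 + ε) with hη
  have hη0 : 0 < η := by positivity
  have hη1 : 1 - η = 1 / (1 + ε) := by rw [hη]; field_simp; ring
  have hη2 : 0 < 1 - η := by rw [hη1]; positivity
  obtain ⟨D, hD1, hD⟩ := sq_le_two_pow hη0
  set C₂ : ℝ := max C₁ 1 with hC₂
  have hC₂1 : 1 ≤ C₂ := le_max_right _ _
  have hC₂0 : 0 < C₂ := by linarith
  set L : ℝ := 2 * C₂ ^ 2 * D with hL
  have hL1 : 1 ≤ L := by
    have : (1 : ℝ) ≤ C₂ ^ 2 := one_le_pow₀ hC₂1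
    nlinarith
  have hL0 : 0 < L := by linarith
  refine ⟨1 / (2 * L ^ (1 + ε)), by positivity, fun N δ hN hδ0 hδ1 => ?_⟩
  have hN1 : (1 : ℝ) ≤ N := by exact_mod_cast hN
  have hN0 : (0 : ℝ) < N := by linarith
  -- the level
  have hex : ∃ j : ℕ, C₂ ^ 2 * ((j : ℝ) + 1) ^ 2 * (N : ℝ) ^ (2 * δ) ≤ (2 : ℝ) ^ j := by
    obtain ⟨j, hj⟩ := pow_unbounded_of_one_lt (C₂ ^ 2 * D * (N : ℝ) ^ (2 * δ))
      (show (1 : ℝ) < (2 : ℝ) ^ (1 - η) from Real.one_lt_rpow (by norm_num) hη2)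
    refine ⟨j, ?_⟩
    have h1 : (2 : ℝ) ^ j = ((2 : ℝ) ^ (1 - η)) ^ j * (2 : ℝ) ^ (η * j) := by
      rw [← Real.rpow_natCast, ← Real.rpow_natCast, ← Real.rpow_mul (by norm_num),
        ← Real.rpow_add (by norm_num)]
      congr 1; ring
    rw [h1]
    calc C₂ ^ 2 * ((j : ℝ) + 1) ^ 2 * (N : ℝ) ^ (2 * δ)
        ≤ C₂ ^ 2 * (D * (2 : ℝ) ^ (η * j)) * (N : ℝ) ^ (2 * δ) := by
          gcongr
          exact hD j
      _ = (C₂ ^ 2 * D * (N : ℝ) ^ (2 * δ)) * (2 : ℝ) ^ (η * j) := by ring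
      _ ≤ _ := by gcongr
  set j₀ := Nat.find hex with hj₀
  have hP : C₂ ^ 2 * ((j₀ : ℝ) + 1) ^ 2 * (N : ℝ) ^ (2 * δ) ≤ (2 : ℝ) ^ j₀ := Nat.find_spec hex
  have hbig : (2 : ℝ) ^ j₀ ≤ L ^ (1 + ε) * (N : ℝ) ^ (2 * δ + ε) := by
    have hNr : (1 : ℝ) ≤ (N : ℝ) ^ (2 * δ + ε) := Real.one_le_rpow hN1 (by positivity)
    have hLr : (1 : ℝ) ≤ L ^ (1 + ε) := Real.one_le_rpow hL1 (by positivity)
    rcases Nat.eq_zero_or_pos j₀ with h0 | h0
    · rw [h0, pow_zero]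
      nlinarith
    · obtain ⟨j, hj⟩ : ∃ j, j₀ = j + 1 := ⟨j₀ - 1, by omega⟩
      have hn : ¬ (C₂ ^ 2 * ((j : ℝ) + 1) ^ 2 * (N : ℝ) ^ (2 * δ) ≤ (2 : ℝ) ^ j) :=
        Nat.find_min hex (by omega)
      rw [not_le] at hn
      have h1 : (2 : ℝ) ^ j = ((2 : ℝ) ^ j) ^ (1 - η) * (2 : ℝ) ^ (η * j) := by
        rw [← Real.rpow_natCast, ← Real.rpow_mul (by norm_num), ← Real.rpow_add (by norm_num)]
        congr 1; ring
      have h2 : ((2 : ℝ) ^ j) ^ (1 - η) < C₂ ^ 2 * D * (N : ℝ) ^ (2 * δ) := by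
        have h3 : ((2 : ℝ) ^ j) ^ (1 - η) * (2 : ℝ) ^ (η * j) <
            (C₂ ^ 2 * D * (N : ℝ) ^ (2 * δ)) * (2 : ℝ) ^ (η * j) := by
          rw [← h1]
          refine hn.trans_le ?_
          calc C₂ ^ 2 * ((j : ℝ) + 1) ^ 2 * (N : ℝ) ^ (2 * δ)
              ≤ C₂ ^ 2 * (D * (2 : ℝ) ^ (η * j)) * (N : ℝ) ^ (2 * δ) := by
                gcongr
                exact hD j
            _ = _ := by ring
        exact lt_of_mul_lt_mul_right h3 (by positivity)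
      have h4 : (2 : ℝ) ^ j ≤ (C₂ ^ 2 * D * (N : ℝ) ^ (2 * δ)) ^ (1 + ε) := by
        have h5 : (2 : ℝ) ^ j = (((2 : ℝ) ^ j) ^ (1 - η)) ^ (1 + ε) := by
          rw [← Real.rpow_mul (by positivity), hη1]
          have : 1 / (1 + ε) * (1 + ε) = 1 := by field_simp
          rw [this, Real.rpow_one]
        rw [h5]
        exact Real.rpow_le_rpow (by positivity) h2.le (by positivity)
      have h6 : (C₂ ^ 2 * D * (N : ℝ) ^ (2 * δ)) ^ (1 + ε) =
          (C₂ ^ 2 * D) ^ (1 + ε) * (N : ℝ) ^ (2 * δ * (1 + ε)) := by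
        rw [Real.mul_rpow (by positivity) (by positivity), ← Real.rpow_mul hN0.le]
      have h7 : (2 : ℝ) ^ j₀ = 2 * (2 : ℝ) ^ j := by rw [hj, pow_succ]; ring
      have h8 : (2 : ℝ) ≤ (2 : ℝ) ^ (1 + ε) := by
        calc (2 : ℝ) = (2 : ℝ) ^ (1 : ℝ) := (Real.rpow_one 2).symm
          _ ≤ _ := Real.rpow_le_rpow_of_exponent_le (by norm_num) (by linarith)
      calc (2 : ℝ) ^ j₀ = 2 * (2 : ℝ) ^ j := h7
        _ ≤ (2 : ℝ) ^ (1 + ε) * ((C₂ ^ 2 * D) ^ (1 + ε) * (N : ℝ) ^ (2 * δ * (1 + ε))) := by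
            rw [← h6]; gcongr
        _ = L ^ (1 + ε) * (N : ℝ) ^ (2 * δ * (1 + ε)) := by
            rw [← mul_assoc, ← Real.mul_rpow (by norm_num) (by positivity), hL]
            congr 2; ring
        _ ≤ L ^ (1 + ε) * (N : ℝ) ^ (2 * δ + ε) := by
            gcongr 2
            nlinarith [mul_le_mul_of_nonneg_right (show 2 * δ ≤ 1 by linarith) hε.le]
  -- members
  have hroot : C₂ * ((j₀ : ℝ) + 1) * (N : ℝ) ^ δ ≤ √(2 ^ j₀) := by
    apply Real.le_sqrt_of_sq_le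
    refine le_trans (le_of_eq ?_) hP
    have : ((N : ℝ) ^ δ) ^ 2 = (N : ℝ) ^ (2 * δ) := by
      rw [← Real.rpow_natCast, ← Real.rpow_mul hN0.le]
      congr 1; push_cast; ring
    rw [mul_pow, mul_pow, this]
  have hmem : ∀ k ∈ Icc 1 (N / 2 ^ j₀),
      2 ^ j₀ * k ∈ {q ∈ Icc 1 N | (nu A q : ℝ) ≤ (q : ℝ) ^ (1 - δ)} := by
    intro k hk
    rw [mem_Icc] at hk
    have hq1 : 1 ≤ 2 ^ j₀ * k := Nat.mul_pos (by positivity) hk.1
    have hqN : 2 ^ j₀ * k ≤ N :=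
      le_trans (Nat.mul_le_mul_left _ hk.2) (Nat.mul_div_le N _)
    rw [mem_filter, mem_Icc]
    refine ⟨⟨hq1, hqN⟩, ?_⟩
    have h1 := nu_mul_le A (m := 2 ^ j₀) (k := k) (by positivity) hk.1
    have h2 : (nu A (2 ^ j₀ * k) : ℝ) ≤ k * (((fun a => a % 2 ^ j₀) '' A).ncard : ℝ) := by
      exact_mod_cast h1
    set q := 2 ^ j₀ * k with hq
    have hq0 : (0 : ℝ) < q := by exact_mod_cast hq1
    have hqN' : (q : ℝ) ≤ N := by exact_mod_cast hqN
    have hNδ : (0 : ℝ) < (N : ℝ) ^ δ := by positivity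
    have h3 : (k : ℝ) * (((fun a => a % 2 ^ j₀) '' A).ncard : ℝ) * (N : ℝ) ^ δ ≤ q := by
      calc (k : ℝ) * (((fun a => a % 2 ^ j₀) '' A).ncard : ℝ) * (N : ℝ) ^ δ
          ≤ k * (C₂ * ((j₀ : ℝ) + 1) * √(2 ^ j₀)) * (N : ℝ) ^ δ := by
            gcongr
            refine (hA j₀).trans ?_
            gcongr
            exact le_max_left _ _
        _ = k * √(2 ^ j₀) * (C₂ * ((j₀ : ℝ) + 1) * (N : ℝ) ^ δ) := by ring
        _ ≤ k * √(2 ^ j₀) * √(2 ^ j₀) := by gcongr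
        _ = k * 2 ^ j₀ := by
            rw [mul_assoc, Real.mul_self_sqrt (by positivity)]
        _ = q := by rw [hq]; push_cast; ring
    have h4 : (q : ℝ) ^ (1 - δ) = q / (q : ℝ) ^ δ := by
      rw [Real.rpow_sub hq0, Real.rpow_one]
    rw [h4, le_div_iff₀ (by positivity)]
    calc (nu A q : ℝ) * (q : ℝ) ^ δ ≤ (k * (((fun a => a % 2 ^ j₀) '' A).ncard : ℝ)) * (N : ℝ) ^ δ := by
          gcongr
      _ ≤ q := h3
  set F := {q ∈ Icc 1 N | (nu A q : ℝ) ≤ (q : ℝ) ^ (1 - δ)} with hF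
  have hF1 : N / 2 ^ j₀ ≤ #F := by
    have h1 : #((Icc 1 (N / 2 ^ j₀)).image fun k => 2 ^ j₀ * k) ≤ #F := by
      refine card_le_card fun q hq => ?_
      obtain ⟨k, hk, rfl⟩ := mem_image.1 hq
      exact hmem k hk
    rwa [card_image_of_injective _ (mul_right_injective₀ (by positivity)), Nat.card_Icc,
      Nat.add_sub_cancel] at h1
  have hF2 : 1 ≤ #F := by
    rw [Nat.one_le_iff_ne_zero, Ne, card_eq_zero, ← Ne, ← Finset.nonempty_iff_ne_empty]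
    refine ⟨1, ?_⟩
    rw [hF, mem_filter, mem_Icc]
    refine ⟨⟨le_rfl, hN⟩, ?_⟩
    have h1 : nu A 1 ≤ 1 := by
      unfold nu
      exact (card_filter_le _ _).trans (by simp)
    rw [Nat.cast_one, Real.one_rpow]
    exact_mod_cast h1
  have hcount : (N : ℝ) / (2 * 2 ^ j₀) ≤ #F := by
    have h1 : (N : ℝ) / 2 ^ j₀ < (N / 2 ^ j₀ : ℕ) + 1 := by
      have h2 : N < (N / 2 ^ j₀ + 1) * 2 ^ j₀ :=
        Nat.lt_mul_of_div_lt (Nat.lt_succ_self _) (by positivity)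
      rw [div_lt_iff₀ (by positivity)]
      exact_mod_cast h2
    have h3 : ((N / 2 ^ j₀ : ℕ) : ℝ) ≤ #F := by exact_mod_cast hF1
    have h4 : (1 : ℝ) ≤ #F := by exact_mod_cast hF2
    have h5 : (N : ℝ) / (2 * 2 ^ j₀) = (N : ℝ) / 2 ^ j₀ / 2 := by
      rw [div_div, mul_comm]
    rw [h5]
    linarith
  refine le_trans ?_ hcount
  have h1 : (N : ℝ) ^ (1 - 2 * δ - ε) = N / (N : ℝ) ^ (2 * δ + ε) := by
    have h2 : 1 - 2 * δ - ε = 1 - (2 * δ + ε) := by ring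
    rw [h2, Real.rpow_sub hN0, Real.rpow_one]
  rw [h1]
  have hp : (0 : ℝ) < (N : ℝ) ^ (2 * δ + ε) := by positivity
  have hLp : (0 : ℝ) < L ^ (1 + ε) := by positivity
  calc 1 / (2 * L ^ (1 + ε)) * (N / (N : ℝ) ^ (2 * δ + ε))
      = N / (2 * (L ^ (1 + ε) * (N : ℝ) ^ (2 * δ + ε))) := by field_simp
    _ ≤ N / (2 * 2 ^ j₀) := by gcongr

end Pool.Agent.Helper99.RC
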